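import Mathlib

set_option autoImplicit false
open MeasureTheory

namespace Pool.Agent.KS6_47.SJ.H227

/-- The characteristic function of the set with characteristic sequence `A`, as an oracle. -/
def chi (A : ℕ → Bool) : ℕ →. ℕ := fun n => Part.some (A n).toNat

/-- Turing reducibility of sets of natural numbers (given by characteristic sequences). -/
def TLe (A B : ℕ → Bool) : Prop := TuringReducible (chi A) (chi B)

/-- `W` is computably enumerable relative to `A`: it is the domain of a partial function
that is recursive in (the characteristic function of) `A`. -/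
def CEIn (A : ℕ → Bool) (W : Set ℕ) : Prop :=
  ∃ f : ℕ →. ℕ, TuringReducible f (chi A) ∧ ∀ n, n ∈ W ↔ (f n).Dom

/-- The basic open subset of Cantor space given by the finite string `σ`: all infinite binary
sequences extending `σ`. -/
def cyl (σ : List Bool) : Set (ℕ → Bool) := {X | ∀ (i : ℕ) (h : i < σ.length), X i = σ[i]}

/-- The uniform (fair coin, Lebesgue) measure on Cantor space. -/
noncomputable def lam : Measure (ℕ → Bool) :=
  Measure.infinitePi (fun _ : ℕ => (PMF.uniformOfFintype Bool).toMeasure)

/-- `U 0, U 1, ...` is a Martin-Löf test relative to the oracle `A`: the `U n` are open sets,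
uniformly c.e. relative to `A`, and the measure of `U n` is at most `2 ^ (-n)`. -/
def IsMLTest (A : ℕ → Bool) (U : ℕ → Set (ℕ → Bool)) : Prop :=
  (∃ W : Set ℕ, CEIn A W ∧
    ∀ n, U n = ⋃ σ ∈ {σ : List Bool | Nat.pair n (Encodable.encode σ) ∈ W}, cyl σ) ∧
  ∀ n, lam (U n) ≤ (1 / 2) ^ n

/-- `X` is Martin-Löf random relative to `A`. -/
def MLR (A X : ℕ → Bool) : Prop :=
  ∀ U : ℕ → Set (ℕ → Bool), IsMLTest A U → X ∉ ⋂ n, U n

/-- The join `X ⊕ Y = {2n : n ∈ X} ∪ {2n+1 : n ∈ Y}`. -/
def join (X Y : ℕ → Bool) : ℕ → Bool := fun n => if n % 2 = 0 then X (n / 2) else Y (n / 2)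

end Pool.Agent.KS6_47.SJ.H227
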