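import Pool.Agent.KS6_47.SJ.H227.Defs
import Pool.Agent.KS6_47.SJ.H227.SOne

set_option autoImplicit false

namespace Pool.Agent.KS6_47.SJ.H227

open Encodable

/-- initial segment of length `n`. -/
def pre (X : ℕ → Bool) (n : ℕ) : List Bool := (List.range n).map X

@[simp] theorem length_pre (X : ℕ → Bool) (n : ℕ) : (pre X n).length = n := by simp [pre]

theorem pre_succ (X : ℕ → Bool) (n : ℕ) : pre X (n + 1) = pre X n ++ [X n] := by
  simp [pre, List.range_succ]

theorem getElem_pre (X : ℕ → Bool) (n i : ℕ) (h : i < (pre X n).length) : (pre X n)[i] = X i := by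
  simp [pre]

theorem pre_getElem? (X : ℕ → Bool) (n i : ℕ) (h : i < n) : (pre X n)[i]? = some (X i) := by
  simp [pre, h]

theorem pre_getElem?_none (X : ℕ → Bool) (n i : ℕ) (h : n ≤ i) : (pre X n)[i]? = none := by
  simp [pre, h]

theorem pre_getD (X : ℕ → Bool) (n i : ℕ) (d : Bool) (h : i < n) : (pre X n).getD i d = X i := by
  simp [pre, List.getD, h]

theorem take_pre (X : ℕ → Bool) (n m : ℕ) (h : m ≤ n) : (pre X n).take m = pre X m := by
  rw [pre, pre, ← List.map_take, List.take_range, min_eq_left h]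

theorem pre_prefix (X : ℕ → Bool) {m n : ℕ} (h : m ≤ n) : pre X m <+: pre X n := by
  rw [← take_pre X n m h]
  exact List.take_prefix _ _

theorem pre_eq_of_prefix {X : ℕ → Bool} {n : ℕ} {σ : List Bool} (h : σ <+: pre X n) :
    σ = pre X σ.length := by
  rw [List.prefix_iff_eq_take] at h
  have hl : σ.length ≤ n := by
    have := congrArg List.length h
    simp at this
    omega
  rw [← take_pre X n _ hl]
  exact h

theorem recIn_graph {A : ℕ → Bool} {f : ℕ →. ℕ} (hf : Nat.RecursiveIn {chi A} f) :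
    ∃ G : List Bool × ℕ × ℕ → Prop, S1 G ∧
      (∀ σ τ n m, σ <+: τ → G (σ, n, m) → G (τ, n, m)) ∧
      ∀ n m, m ∈ f n ↔ ∃ s, G (pre A s, n, m) := by
  induction hf with
  | zero =>
    refine ⟨fun x => x.2.2 = 0, S1.of_prim ?_, fun _ _ _ _ _ h => h, ?_⟩
    · exact Primrec.eq.comp (Primrec.snd.comp Primrec.snd) (Primrec.const 0)
    · intro n m
      simp only [exists_const]
      exact Part.mem_some_iff
  | succ =>
    refine ⟨fun x => x.2.2 = x.2.1 + 1, S1.of_prim ?_, fun _ _ _ _ _ h => h, ?_⟩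
    · exact Primrec.eq.comp (Primrec.snd.comp Primrec.snd)
        (Primrec.succ.comp (Primrec.fst.comp Primrec.snd))
    · intro n m
      simp only [exists_const]
      exact Part.mem_some_iff
  | left =>
    refine ⟨fun x => x.2.2 = (Nat.unpair x.2.1).1, S1.of_prim ?_, fun _ _ _ _ _ h => h, ?_⟩
    · exact Primrec.eq.comp (Primrec.snd.comp Primrec.snd)
        (Primrec.fst.comp (Primrec.unpair.comp (Primrec.fst.comp Primrec.snd)))
    · intro n m
      simp only [exists_const]
      exact Part.mem_some_iff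
  | right =>
    refine ⟨fun x => x.2.2 = (Nat.unpair x.2.1).2, S1.of_prim ?_, fun _ _ _ _ _ h => h, ?_⟩
    · exact Primrec.eq.comp (Primrec.snd.comp Primrec.snd)
        (Primrec.snd.comp (Primrec.unpair.comp (Primrec.fst.comp Primrec.snd)))
    · intro n m
      simp only [exists_const]
      exact Part.mem_some_iff
  | oracle g hg =>
    rw [Set.mem_singleton_iff] at hg
    subst hg
    refine ⟨fun x => (x.1[x.2.1]?).map Bool.toNat = some x.2.2, S1.of_prim ?_, ?_, ?_⟩
    · exact Primrec.eq.comp (Primrec.option_map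
          (Primrec.list_getElem?.comp Primrec.fst (Primrec.fst.comp Primrec.snd))
          ((Primrec.dom_bool Bool.toNat).comp Primrec.snd))
        (Primrec.option_some.comp (Primrec.snd.comp Primrec.snd))
    · intro σ τ n m h hG
      simp only [Option.map_eq_some_iff] at hG ⊢
      obtain ⟨b, hb, hbm⟩ := hG
      refine ⟨b, ?_, hbm⟩
      obtain ⟨ρ, rfl⟩ := h
      have : n < σ.length := by
        by_contra hc
        rw [List.getElem?_eq_none (by omega)] at hb
        cases hb
      rw [List.getElem?_append_left this]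
      exact hb
    · intro n m
      simp only [chi, Part.mem_some_iff]
      constructor
      · rintro rfl
        exact ⟨n + 1, by rw [pre_getElem? _ _ _ (Nat.lt_succ_self n)]; rfl⟩
      · rintro ⟨s, hs⟩
        by_cases h : n < s
        · rw [pre_getElem? _ _ _ h] at hs
          simpa using hs.symm
        · rw [pre_getElem?_none _ _ _ (by omega)] at hs
          cases hs
  | @pair f h _ _ ihf ihh =>
    obtain ⟨G, hG, mG, eG⟩ := ihf
    obtain ⟨H, hH, mH, eH⟩ := ihh
    refine ⟨fun x => ∃ a : ℕ, ∃ b : ℕ, (G (x.1, x.2.1, a) ∧ H (x.1, x.2.1, b)) ∧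
      x.2.2 = Nat.pair a b, ?_, ?_, ?_⟩
    · refine S1.ex (S1.ex ((S1.and (hG.comp ?_) (hH.comp ?_)).and (S1.of_prim ?_)))
      · exact (Primrec.fst.comp (Primrec.fst.comp Primrec.fst)).pair
          ((Primrec.fst.comp (Primrec.snd.comp (Primrec.fst.comp Primrec.fst))).pair
            (Primrec.snd.comp Primrec.fst))
      · exact (Primrec.fst.comp (Primrec.fst.comp Primrec.fst)).pair
          ((Primrec.fst.comp (Primrec.snd.comp (Primrec.fst.comp Primrec.fst))).pair
            Primrec.snd)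
      · exact Primrec.eq.comp (Primrec.snd.comp (Primrec.snd.comp (Primrec.fst.comp Primrec.fst)))
          (Primrec₂.natPair.comp (Primrec.snd.comp Primrec.fst) Primrec.snd)
    · rintro σ τ n m h ⟨a, b, ⟨h1, h2⟩, h3⟩
      exact ⟨a, b, ⟨mG _ _ _ _ h h1, mH _ _ _ _ h h2⟩, h3⟩
    · intro n m
      simp only [Seq.seq, Part.map_eq_map, Part.mem_bind_iff, Part.mem_map_iff, eG, eH]
      constructor
      · rintro ⟨_, ⟨a, ⟨s, hs⟩, rfl⟩, b, ⟨t, ht⟩, rfl⟩
        exact ⟨max s t, a, b, ⟨mG _ _ _ _ (pre_prefix A (le_max_left _ _)) hs,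
          mH _ _ _ _ (pre_prefix A (le_max_right _ _)) ht⟩, rfl⟩
      · rintro ⟨s, a, b, ⟨h1, h2⟩, rfl⟩
        exact ⟨_, ⟨a, ⟨s, h1⟩, rfl⟩, b, ⟨s, h2⟩, rfl⟩
  | @comp f h _ _ ihf ihh =>
    obtain ⟨G, hG, mG, eG⟩ := ihf
    obtain ⟨H, hH, mH, eH⟩ := ihh
    refine ⟨fun x => ∃ a : ℕ, H (x.1, x.2.1, a) ∧ G (x.1, a, x.2.2), ?_, ?_, ?_⟩
    · refine S1.ex (S1.and (hH.comp ?_) (hG.comp ?_))
      · exact (Primrec.fst.comp Primrec.fst).pair
          ((Primrec.fst.comp (Primrec.snd.comp Primrec.fst)).pair Primrec.snd)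
      · exact (Primrec.fst.comp Primrec.fst).pair
          (Primrec.snd.pair (Primrec.snd.comp (Primrec.snd.comp Primrec.fst)))
    · rintro σ τ n m h ⟨a, h1, h2⟩
      exact ⟨a, mH _ _ _ _ h h1, mG _ _ _ _ h h2⟩
    · intro n m
      refine Part.mem_bind_iff.trans ?_
      simp only [eG, eH]
      constructor
      · rintro ⟨a, ⟨s, hs⟩, ⟨t, ht⟩⟩
        exact ⟨max s t, a, mH _ _ _ _ (pre_prefix A (le_max_left _ _)) hs,
          mG _ _ _ _ (pre_prefix A (le_max_right _ _)) ht⟩
      · rintro ⟨s, a, h1, h2⟩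
        exact ⟨a, ⟨s, h1⟩, ⟨s, h2⟩⟩
  | @prec f h _ _ ihf ihh =>
    obtain ⟨G, hG, mG, eG⟩ := ihf
    obtain ⟨H, hH, mH, eH⟩ := ihh
    refine ⟨fun x => ∃ L : List ℕ, (G (x.1, (Nat.unpair x.2.1).1, L.getD 0 0) ∧
      (∀ i < (Nat.unpair x.2.1).2, H (x.1, Nat.pair (Nat.unpair x.2.1).1 (Nat.pair i (L.getD i 0)),
        L.getD (i + 1) 0))) ∧ x.2.2 = L.getD (Nat.unpair x.2.1).2 0, ?_, ?_, ?_⟩
    · refine S1.ex (S1.and (S1.and (hG.comp ?_) (S1.all_lt (hH.comp ?_) ?_)) (S1.of_prim ?_))
      · exact (Primrec.fst.comp Primrec.fst).pair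
          ((Primrec.fst.comp (Primrec.unpair.comp (Primrec.fst.comp (Primrec.snd.comp Primrec.fst)))).pair
            ((Primrec.list_getD 0).comp Primrec.snd (Primrec.const 0)))
      · exact (Primrec.fst.comp (Primrec.fst.comp Primrec.fst)).pair
          ((Primrec₂.natPair.comp (Primrec.fst.comp (Primrec.unpair.comp (Primrec.fst.comp
              (Primrec.snd.comp (Primrec.fst.comp Primrec.fst)))))
            (Primrec₂.natPair.comp Primrec.snd
              ((Primrec.list_getD 0).comp (Primrec.snd.comp Primrec.fst) Primrec.snd))).pair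
            ((Primrec.list_getD 0).comp (Primrec.snd.comp Primrec.fst)
              (Primrec.succ.comp Primrec.snd)))
      · exact Primrec.snd.comp (Primrec.unpair.comp (Primrec.fst.comp (Primrec.snd.comp Primrec.fst)))
      · exact Primrec.eq.comp (Primrec.snd.comp (Primrec.snd.comp Primrec.fst))
          ((Primrec.list_getD 0).comp Primrec.snd
            (Primrec.snd.comp (Primrec.unpair.comp (Primrec.fst.comp (Primrec.snd.comp Primrec.fst)))))
    · rintro σ τ n m h ⟨L, ⟨h1, h2⟩, h3⟩
      exact ⟨L, ⟨mG _ _ _ _ h h1, fun i hi => mH _ _ _ _ h (h2 i hi)⟩, h3⟩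
    · intro p m
      generalize hp1 : (Nat.unpair p).1 = a
      generalize hp2 : (Nat.unpair p).2 = n
      simp only [hp1, hp2]
      clear hp1 hp2
      constructor
      · suffices hs : ∀ n m, m ∈ (Nat.rec (f a) (fun y IH => IH.bind fun i =>
            h (Nat.pair a (Nat.pair y i))) n : Part ℕ) →
            ∃ s, ∃ L : List ℕ, L.length = n + 1 ∧ (G (pre A s, a, L.getD 0 0) ∧
              (∀ i < n, H (pre A s, Nat.pair a (Nat.pair i (L.getD i 0)), L.getD (i + 1) 0))) ∧
              m = L.getD n 0 by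
          intro hm
          obtain ⟨s, L, _, h1, h2⟩ := hs n m hm
          exact ⟨s, L, h1, h2⟩
        intro n
        induction n with
        | zero =>
          intro m hm
          obtain ⟨s, hs⟩ := (eG a m).1 hm
          exact ⟨s, [m], rfl, ⟨hs, by simp⟩, rfl⟩
        | succ n ih =>
          intro m hm
          simp only [Part.mem_bind_iff] at hm
          obtain ⟨i, hi, hm⟩ := hm
          obtain ⟨s, L, hL, ⟨h1, h2⟩, h3⟩ := ih i hi
          obtain ⟨t, ht⟩ := (eH _ _).1 hm
          refine ⟨max s t, L ++ [m], by simp [hL], ⟨?_, ?_⟩, ?_⟩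
          · rw [List.getD_append _ _ _ _ (by omega)]
            exact mG _ _ _ _ (pre_prefix A (le_max_left _ _)) h1
          · intro j hj
            rcases Nat.lt_succ_iff_lt_or_eq.1 hj with hj' | rfl
            · rw [List.getD_append _ _ _ _ (by omega), List.getD_append _ _ _ _ (by omega)]
              exact mH _ _ _ _ (pre_prefix A (le_max_left _ _)) (h2 j hj')
            · rw [List.getD_append _ _ _ _ (by omega), ← h3,
                List.getD_append_right _ _ _ _ (by omega), hL]
              simp only [Nat.sub_self, List.getD_cons_zero]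
              exact mH _ _ _ _ (pre_prefix A (le_max_right _ _)) ht
          · rw [List.getD_append_right _ _ _ _ (by omega), hL]
            simp
      · rintro ⟨s, L, ⟨h1, h2⟩, rfl⟩
        have : ∀ k ≤ n, L.getD k 0 ∈ (Nat.rec (f a) (fun y IH => IH.bind fun i =>
            h (Nat.pair a (Nat.pair y i))) k : Part ℕ) := by
          intro k
          induction k with
          | zero =>
            intro _
            exact (eG a _).2 ⟨s, h1⟩
          | succ k ih =>
            intro hk
            simp only [Part.mem_bind_iff]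
            exact ⟨L.getD k 0, ih (by omega), (eH _ _).2 ⟨s, h2 k (by omega)⟩⟩
        exact this n le_rfl
  | @rfind f _ ihf =>
    obtain ⟨G, hG, mG, eG⟩ := ihf
    refine ⟨fun x => G (x.1, Nat.pair x.2.1 x.2.2, 0) ∧
      ∀ i < x.2.2, ∃ v : ℕ, v ≠ 0 ∧ G (x.1, Nat.pair x.2.1 i, v), ?_, ?_, ?_⟩
    · refine S1.and (hG.comp ?_) (S1.all_lt (S1.ex (S1.and (S1.of_prim ?_) (hG.comp ?_))) ?_)
      · exact Primrec.fst.pair ((Primrec₂.natPair.comp (Primrec.fst.comp Primrec.snd)
          (Primrec.snd.comp Primrec.snd)).pair (Primrec.const 0))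
      · exact PrimrecPred.not (Primrec.eq.comp Primrec.snd (Primrec.const 0))
      · exact (Primrec.fst.comp (Primrec.fst.comp Primrec.fst)).pair
          ((Primrec₂.natPair.comp (Primrec.fst.comp (Primrec.snd.comp (Primrec.fst.comp Primrec.fst)))
            (Primrec.snd.comp Primrec.fst)).pair Primrec.snd)
      · exact Primrec.snd.comp Primrec.snd
    · rintro σ τ n m h ⟨h1, h2⟩
      refine ⟨mG _ _ _ _ h h1, fun i hi => ?_⟩
      obtain ⟨v, hv, hv2⟩ := h2 i hi
      exact ⟨v, hv, mG _ _ _ _ h hv2⟩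
    · intro a m
      change m ∈ Nat.rfind (fun n => Part.map (fun m => decide (m = 0)) (f (Nat.pair a n))) ↔ _
      refine Nat.mem_rfind.trans ?_
      simp only [Part.mem_map_iff]
      constructor
      · rintro ⟨⟨z, hz, hz0⟩, h2⟩
        have hz1 : z = 0 := by simpa using hz0
        subst hz1
        obtain ⟨s, hs⟩ := (eG _ _).1 hz
        have key : ∀ k ≤ m, ∃ t, ∀ i < k, ∃ v, v ≠ 0 ∧ G (pre A t, Nat.pair a i, v) := by
          intro k
          induction k with
          | zero => intro _; exact ⟨0, by simp⟩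
          | succ k ih =>
            intro hk
            obtain ⟨t, ht⟩ := ih (by omega)
            obtain ⟨v, hv, hv0⟩ := h2 (show k < m by omega)
            have hv1 : v ≠ 0 := by simpa using hv0
            obtain ⟨t', ht'⟩ := (eG _ _).1 hv
            refine ⟨max t t', fun i hi => ?_⟩
            rcases Nat.lt_succ_iff_lt_or_eq.1 hi with hi' | rfl
            · obtain ⟨w, hw, hw'⟩ := ht i hi'
              exact ⟨w, hw, mG _ _ _ _ (pre_prefix A (le_max_left _ _)) hw'⟩
            · exact ⟨v, hv1, mG _ _ _ _ (pre_prefix A (le_max_right _ _)) ht'⟩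
        obtain ⟨t, ht⟩ := key m le_rfl
        refine ⟨max s t, mG _ _ _ _ (pre_prefix A (le_max_left _ _)) hs, fun i hi => ?_⟩
        obtain ⟨w, hw, hw'⟩ := ht i hi
        exact ⟨w, hw, mG _ _ _ _ (pre_prefix A (le_max_right _ _)) hw'⟩
      · rintro ⟨s, h1, h2⟩
        refine ⟨⟨0, (eG _ _).2 ⟨s, h1⟩, by simp⟩, fun {i} hi => ?_⟩
        obtain ⟨v, hv, hv'⟩ := h2 i hi
        exact ⟨v, (eG _ _).2 ⟨s, hv'⟩, by simpa using hv⟩

/-- the function `n ↦ code of (A 0, ..., A (n-1))` is recursive in `A`. -/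
theorem recIn_pre (A : ℕ → Bool) :
    Nat.RecursiveIn {chi A} (fun n => Part.some (encode (pre A n))) := by
  have happ : Primrec (fun p : ℕ => encode
      (((decode (α := List Bool) (Nat.unpair (Nat.unpair (Nat.unpair p).1).2).2).getD []) ++
        [decide ((Nat.unpair p).2 = 1)])) := by
    refine Primrec.encode.comp (Primrec.list_append.comp ?_ ?_)
    · exact Primrec.option_getD.comp (Primrec.decode.comp (Primrec.snd.comp (Primrec.unpair.comp
        (Primrec.snd.comp (Primrec.unpair.comp (Primrec.fst.comp Primrec.unpair)))))) (Primrec.const [])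
    · refine Primrec.list_cons.comp ?_ (Primrec.const [])
      exact (Primrec.eq.comp (Primrec.snd.comp Primrec.unpair) (Primrec.const 1)).decide
  have h1 : Nat.RecursiveIn {chi A} (fun p : ℕ => Part.some (encode
      (((decode (α := List Bool) (Nat.unpair (Nat.unpair (Nat.unpair p).1).2).2).getD []) ++
        [decide ((Nat.unpair p).2 = 1)]))) :=
    Nat.Primrec.recursiveIn (Primrec.nat_iff.1 happ)
  have hy : Nat.RecursiveIn {chi A} (fun p : ℕ => chi A (Nat.unpair (Nat.unpair p).2).1) := by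
    have hl : Nat.RecursiveIn {chi A} (fun p : ℕ => Part.some (Nat.unpair (Nat.unpair p).2).1) :=
      Nat.Primrec.recursiveIn (Primrec.nat_iff.1 (Primrec.fst.comp (Primrec.unpair.comp
        (Primrec.snd.comp Primrec.unpair))))
    refine (Nat.RecursiveIn.comp (Nat.RecursiveIn.oracle (chi A) (Set.mem_singleton _)) hl).of_eq fun p => ?_
    exact Part.bind_some _ _
  have hid : Nat.RecursiveIn {chi A} (fun p : ℕ => Part.some p) :=
    Nat.Primrec.recursiveIn (Primrec.nat_iff.1 Primrec.id)
  have hstep : Nat.RecursiveIn {chi A} (fun p : ℕ => Part.some (encode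
      (((decode (α := List Bool) (Nat.unpair (Nat.unpair p).2).2).getD []) ++
        [A (Nat.unpair (Nat.unpair p).2).1]))) := by
    refine (Nat.RecursiveIn.comp h1 (Nat.RecursiveIn.pair hid hy)).of_eq fun p => ?_
    simp only [chi, Seq.seq, Part.map_eq_map, Part.map_some, Part.bind_some]
    refine (Part.bind_some _ _).trans ?_
    simp
  have hc : Nat.RecursiveIn {chi A} (fun _ : ℕ => Part.some (encode ([] : List Bool))) :=
    Nat.Primrec.recursiveIn (Primrec.nat_iff.1 (Primrec.const _))
  have hp := Nat.RecursiveIn.prec hc hstep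
  have hq : Nat.RecursiveIn {chi A} (fun n : ℕ => Part.some (Nat.pair 0 n)) :=
    Nat.Primrec.recursiveIn (Primrec.nat_iff.1 (Primrec₂.natPair.comp (Primrec.const 0) Primrec.id))
  refine (Nat.RecursiveIn.comp hp hq).of_eq fun n => ?_
  refine (Part.bind_some _ _).trans ?_
  simp only [Nat.unpair_pair]
  induction n with
  | zero => rfl
  | succ n ih =>
    simp only [ih]
    refine (Part.bind_some _ _).trans ?_
    simp [pre_succ]

theorem recIn_of_graph {A : ℕ → Bool} {f : ℕ →. ℕ} {G : List Bool × ℕ × ℕ → Prop} (hG : S1 G)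
    (e : ∀ n m, m ∈ f n ↔ ∃ s, G (pre A s, n, m)) : Nat.RecursiveIn {chi A} f := by
  classical
  obtain ⟨q, hq, hm, he⟩ := hG
  -- candidates `k = ⟨s, ⟨m, t⟩⟩`
  have hdec : PrimrecPred (fun p : ℕ =>
      q ((decode (α := List Bool) (Nat.unpair p).2).getD [], (Nat.unpair (Nat.unpair p).1).1,
        (Nat.unpair (Nat.unpair (Nat.unpair (Nat.unpair p).1).2).2).1)
        (Nat.unpair (Nat.unpair (Nat.unpair (Nat.unpair p).1).2).2).2) := by
    have e1 : Primrec (fun p : ℕ => Nat.unpair (Nat.unpair p).1) :=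
      Primrec.unpair.comp (Primrec.fst.comp Primrec.unpair)
    have e2 : Primrec (fun p : ℕ => Nat.unpair (Nat.unpair (Nat.unpair (Nat.unpair p).1).2).2) :=
      Primrec.unpair.comp (Primrec.snd.comp (Primrec.unpair.comp (Primrec.snd.comp e1)))
    exact hq.comp ((Primrec.option_getD.comp (Primrec.decode.comp (Primrec.snd.comp Primrec.unpair))
      (Primrec.const [])).pair ((Primrec.fst.comp e1).pair (Primrec.fst.comp e2)))
      (Primrec.snd.comp e2)
  have hF : Primrec (fun p : ℕ => if (q ((decode (α := List Bool) (Nat.unpair p).2).getD [],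
        (Nat.unpair (Nat.unpair p).1).1,
        (Nat.unpair (Nat.unpair (Nat.unpair (Nat.unpair p).1).2).2).1)
        (Nat.unpair (Nat.unpair (Nat.unpair (Nat.unpair p).1).2).2).2) then 0 else 1) :=
    Primrec.ite hdec (Primrec.const 0) (Primrec.const 1)
  have hF' := Nat.Primrec.recursiveIn (O := {chi A}) (Primrec.nat_iff.1 hF)
  have hid : Nat.RecursiveIn {chi A} (fun p : ℕ => Part.some p) :=
    Nat.Primrec.recursiveIn (Primrec.nat_iff.1 Primrec.id)
  have hs : Nat.RecursiveIn {chi A} (fun p : ℕ => Part.some (Nat.unpair (Nat.unpair p).2).1) :=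
    Nat.Primrec.recursiveIn (Primrec.nat_iff.1 (Primrec.fst.comp (Primrec.unpair.comp
      (Primrec.snd.comp Primrec.unpair))))
  have hpre : Nat.RecursiveIn {chi A}
      (fun p : ℕ => Part.some (encode (pre A (Nat.unpair (Nat.unpair p).2).1))) :=
    (Nat.RecursiveIn.comp (recIn_pre A) hs).of_eq fun p => Part.bind_some _ _
  have hg : Nat.RecursiveIn {chi A} (fun p : ℕ => Part.some
      (if (q (pre A (Nat.unpair (Nat.unpair p).2).1, (Nat.unpair p).1,
        (Nat.unpair (Nat.unpair (Nat.unpair p).2).2).1)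
        (Nat.unpair (Nat.unpair (Nat.unpair p).2).2).2) then 0 else 1)) := by
    refine (Nat.RecursiveIn.comp hF' (Nat.RecursiveIn.pair hid hpre)).of_eq fun p => ?_
    simp only [Seq.seq, Part.map_eq_map, Part.map_some, Part.bind_some]
    refine (Part.bind_some _ _).trans ?_
    simp
  have hr := Nat.RecursiveIn.rfind hg
  have ho : Nat.RecursiveIn {chi A} (fun p : ℕ => Part.some (Nat.unpair (Nat.unpair p).2).1) := hs
  refine (Nat.RecursiveIn.comp ho hr).of_eq fun n => ?_
  ext m
  refine Part.mem_bind_iff.trans ?_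
  constructor
  · rintro ⟨k, hk, hkm⟩
    rw [Part.mem_some_iff] at hkm
    subst hkm
    obtain ⟨hk1, _⟩ := Nat.mem_rfind.1 hk
    simp only [Part.map_eq_map, Part.map_some, Part.mem_some_iff] at hk1
    have hk2 : q (pre A (Nat.unpair k).1, n, (Nat.unpair (Nat.unpair k).2).1)
        (Nat.unpair (Nat.unpair k).2).2 := by
      by_contra hc
      simp [hc] at hk1
    exact (e _ _).2 ⟨_, (he _).2 ⟨_, hk2⟩⟩
  · intro hmf
    obtain ⟨s, hs1⟩ := (e _ _).1 hmf
    obtain ⟨t, ht⟩ := (he _).1 hs1
    have hdom : (Nat.rfind fun k => Part.map (fun m => decide (m = 0)) (Part.some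
      (if (q (pre A (Nat.unpair (Nat.unpair (Nat.pair n k)).2).1, (Nat.unpair (Nat.pair n k)).1,
        (Nat.unpair (Nat.unpair (Nat.unpair (Nat.pair n k)).2).2).1)
        (Nat.unpair (Nat.unpair (Nat.unpair (Nat.pair n k)).2).2).2) then 0 else 1))).Dom := by
      refine Nat.rfind_dom.2 ⟨Nat.pair s (Nat.pair m t), ?_, ?_⟩
      · simp [ht]
      · intro _ _
        simp
    obtain ⟨k, hk⟩ := Part.dom_iff_mem.1 hdom
    refine ⟨k, hk, ?_⟩
    rw [Part.mem_some_iff]
    obtain ⟨hk1, _⟩ := Nat.mem_rfind.1 hk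
    simp only [Part.map_some, Part.mem_some_iff] at hk1
    have hk2 : q (pre A (Nat.unpair k).1, n, (Nat.unpair (Nat.unpair k).2).1)
        (Nat.unpair (Nat.unpair k).2).2 := by
      by_contra hc
      simp [hc] at hk1
    exact Part.mem_unique hmf ((e _ _).2 ⟨_, (he _).2 ⟨_, hk2⟩⟩)

end Pool.Agent.KS6_47.SJ.H227
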